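import Mathlib

/-!
# MP_63ed06_co: optimal `d`-intersecting families of chains

For all `2 ≤ d ≤ n` no optimal `d`-intersecting family of chains in `[n]` consists of chains that all
contain `X_0, X_1, …, X_{d-1}`: the chains containing `X_0, …, X_{d-2}` and `X_n = [n]` are more
numerous.
-/

set_option autoImplicit false

open Finset

namespace Pool.Agent.Results.MP_63ed06_co.NoInitialSegment

/-- A chain `A_1 ⊊ ⋯ ⊊ A_m` (`m ≥ 1`) of subsets of `[n]`, given as its set of members: a nonempty
set of subsets of `[n]` any two of which are comparable. -/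
def IsChainOf {n : ℕ} (C : Finset (Finset (Fin n))) : Prop :=
  C.Nonempty ∧ ∀ A ∈ C, ∀ B ∈ C, A ⊆ B ∨ B ⊆ A

/-- `F` is a `d`-intersecting family of chains in `[n]`: any two members (equal or not) have at
least `d` sets in common. -/
def DIntersecting {n : ℕ} (d : ℕ) (F : Finset (Finset (Finset (Fin n)))) : Prop :=
  (∀ C ∈ F, IsChainOf C) ∧ ∀ C ∈ F, ∀ C' ∈ F, d ≤ #(C ∩ C')

/-- `F` is an optimal `d`-intersecting family of chains in `[n]`: it has maximum cardinality. -/
def Optimal {n : ℕ} (d : ℕ) (F : Finset (Finset (Finset (Fin n)))) : Prop :=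
  DIntersecting d F ∧ ∀ G : Finset (Finset (Finset (Fin n))), DIntersecting d G → #G ≤ #F

/-- `X_j = {1, …, j}`, the first `j` elements of `[n]`. -/
def X (n j : ℕ) : Finset (Fin n) := univ.filter (fun i => (i : ℕ) < j)

lemma mem_X {n j : ℕ} {i : Fin n} : i ∈ X n j ↔ (i : ℕ) < j := by simp [X]

lemma X_mono {n i j : ℕ} (h : i ≤ j) : X n i ⊆ X n j := by
  intro x hx
  rw [mem_X] at hx ⊢
  omega

lemma X_ne {n i j : ℕ} (h : i < j) (hj : j ≤ n) : X n i ≠ X n j := by
  intro he
  have h1 : (⟨i, by omega⟩ : Fin n) ∈ X n j := mem_X.2 h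
  rw [← he, mem_X] at h1
  exact lt_irrefl _ h1

lemma X_ne_univ {n i : ℕ} (h : i < n) : X n i ≠ univ := by
  intro he
  have h1 : (⟨i, h⟩ : Fin n) ∈ X n i := he ▸ mem_univ _
  rw [mem_X] at h1
  exact lt_irrefl _ h1

/-- **For `2 ≤ d ≤ n` no optimal `d`-intersecting family of chains in `[n]` consists only of chains
containing `X_0, …, X_{d-1}`.** -/
theorem result (n d : ℕ) (hd : 2 ≤ d) (hdn : d ≤ n) (F : Finset (Finset (Finset (Fin n))))
    (hF : Optimal d F) : ¬ ∀ C ∈ F, ∀ j < d, X n j ∈ C := by
  classical
  intro hX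
  obtain ⟨u, rfl⟩ : ∃ u, d = u + 2 := ⟨d - 2, by omega⟩
  -- the set `Y`, incomparable with `X_{d-1}`
  set Y : Finset (Fin n) := insert ⟨u + 1, by omega⟩ (X n u) with hY
  have hYu : (⟨u, by omega⟩ : Fin n) ∉ Y := by
    rw [hY, mem_insert, mem_X]
    simp [Fin.ext_iff]
  have hY1 : (⟨u + 1, by omega⟩ : Fin n) ∈ Y := mem_insert_self _ _
  have hYX : ¬ (X n (u + 1) ⊆ Y) := fun h => hYu (h (mem_X.2 (Nat.lt_succ_self u)))
  have hXY : ¬ (Y ⊆ X n (u + 1)) := fun h => by
    have := mem_X.1 (h hY1)
    simp at this
  have hYuniv : Y ≠ univ := fun h => hYu (h ▸ mem_univ _)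
  -- the common sets
  set S : Finset (Finset (Fin n)) := insert univ ((range (u + 1)).image (X n)) with hS
  have hScard : #S = u + 2 := by
    rw [hS, card_insert_of_notMem, card_image_of_injOn, card_range]
    · intro i hi j hj hij
      have hi' := mem_range.1 (mem_coe.1 hi)
      have hj' := mem_range.1 (mem_coe.1 hj)
      rcases lt_trichotomy i j with h | h | h
      · exact absurd hij (X_ne h (by omega))
      · exact h
      · exact absurd hij.symm (X_ne h (by omega))
    · intro h
      obtain ⟨i, hi, hi2⟩ := mem_image.1 h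
      exact X_ne_univ (by have := mem_range.1 hi; omega) hi2
  have hSX : ∀ A ∈ S, A ⊆ X n u ∨ A = univ := by
    intro A hA
    rw [hS, mem_insert] at hA
    rcases hA with h | h
    · exact Or.inr h
    · obtain ⟨i, hi, rfl⟩ := mem_image.1 h
      exact Or.inl (X_mono (by have := mem_range.1 hi; omega))
  have hScomp : ∀ A ∈ S, ∀ B ∈ S, A ⊆ B ∨ B ⊆ A := by
    intro A hA B hB
    rw [hS, mem_insert] at hA hB
    rcases hA with h | h
    · exact Or.inr (h ▸ subset_univ _)
    · rcases hB with h' | h'
      · exact Or.inl (h' ▸ subset_univ _)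
      · obtain ⟨i, _, rfl⟩ := mem_image.1 h
        obtain ⟨j, _, rfl⟩ := mem_image.1 h'
        rcases le_total i j with hij | hij
        · exact Or.inl (X_mono hij)
        · exact Or.inr (X_mono hij)
  -- the injection
  let φ : Finset (Finset (Fin n)) → Finset (Finset (Fin n)) :=
    fun C => if univ ∈ C then C else insert univ (C.erase (X n (u + 1)))
  have hXn : X n (u + 1) ≠ univ := X_ne_univ (by omega)
  have hφS : ∀ C ∈ F, S ⊆ φ C := by
    intro C hC A hA
    have h1 := hX C hC
    rw [hS, mem_insert] at hA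
    show A ∈ (if univ ∈ C then C else insert univ (C.erase (X n (u + 1))))
    split_ifs with hu
    · rcases hA with h | h
      · exact h ▸ hu
      · obtain ⟨i, hi, rfl⟩ := mem_image.1 h
        exact h1 i (by have := mem_range.1 hi; omega)
    · rcases hA with h | h
      · exact mem_insert.2 (Or.inl h)
      · obtain ⟨i, hi, rfl⟩ := mem_image.1 h
        have hi' := mem_range.1 hi
        exact mem_insert.2 (Or.inr (mem_erase.2 ⟨X_ne (by omega) (by omega), h1 i (by omega)⟩))
  have hφchain : ∀ C ∈ F, IsChainOf (φ C) := by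
    intro C hC
    have h1 := hF.1.1 C hC
    show IsChainOf (if univ ∈ C then C else insert univ (C.erase (X n (u + 1))))
    split_ifs with hu
    · exact h1
    · refine ⟨⟨univ, mem_insert_self _ _⟩, ?_⟩
      intro A hA B hB
      rcases mem_insert.1 hA with h | h
      · exact Or.inr (h ▸ subset_univ _)
      · rcases mem_insert.1 hB with h' | h'
        · exact Or.inl (h' ▸ subset_univ _)
        · exact h1.2 A (mem_erase.1 h).2 B (mem_erase.1 h').2
  have hφinj : Set.InjOn φ (F : Set (Finset (Finset (Fin n)))) := by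
    intro C hC C' hC' he
    have he' : (if univ ∈ C then C else insert univ (C.erase (X n (u + 1)))) =
      (if univ ∈ C' then C' else insert univ (C'.erase (X n (u + 1)))) := he
    have h1 := hX C hC (u + 1) (by omega)
    have h2 := hX C' hC' (u + 1) (by omega)
    have h3 : ∀ D : Finset (Finset (Fin n)), X n (u + 1) ∉ insert univ (D.erase (X n (u + 1))) := by
      intro D h
      rcases mem_insert.1 h with h | h
      · exact hXn h
      · exact (mem_erase.1 h).1 rfl
    split_ifs at he' with hu hu' hu'
    · exact he'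
    · exact absurd (he' ▸ h1) (h3 _)
    · exact absurd (he'.symm ▸ h2) (h3 _)
    · have h4 : C.erase (X n (u + 1)) = C'.erase (X n (u + 1)) := by
        have h5 : univ ∉ C.erase (X n (u + 1)) := fun h => hu (mem_erase.1 h).2
        have h6 : univ ∉ C'.erase (X n (u + 1)) := fun h => hu' (mem_erase.1 h).2
        rw [← erase_insert h5, ← erase_insert h6, he']
      rw [← insert_erase h1, ← insert_erase h2, h4]
  -- the additional chain
  set D : Finset (Finset (Fin n)) := insert Y S with hD
  have hDchain : IsChainOf D := by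
    refine ⟨⟨Y, mem_insert_self _ _⟩, ?_⟩
    have hYS : ∀ A ∈ S, Y ⊆ A ∨ A ⊆ Y := by
      intro A hA
      rcases hSX A hA with h | h
      · exact Or.inr (h.trans (subset_insert _ _))
      · exact Or.inl (h ▸ subset_univ _)
    intro A hA B hB
    rcases mem_insert.1 hA with h | h
    · rcases mem_insert.1 hB with h' | h'
      · exact Or.inl (by rw [h, h'])
      · rw [h]; exact hYS B h'
    · rcases mem_insert.1 hB with h' | h'
      · rw [h']; exact (hYS A h).symm
      · exact hScomp A h B h'
  have hDnot : D ∉ F.image φ := by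
    intro h
    obtain ⟨C, hC, he⟩ := mem_image.1 h
    have he' : (if univ ∈ C then C else insert univ (C.erase (X n (u + 1)))) = D := he
    have h1 := hX C hC (u + 1) (by omega)
    have hYC : Y ∈ C := by
      have hYD : Y ∈ D := mem_insert_self _ _
      rw [← he'] at hYD
      split_ifs at hYD with hu
      · exact hYD
      · rcases mem_insert.1 hYD with h2 | h2
        · exact absurd h2 hYuniv
        · exact (mem_erase.1 h2).2
    rcases (hF.1.1 C hC).2 _ h1 _ hYC with h2 | h2
    · exact hYX h2
    · exact hXY h2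
  have hG := hF.2 (insert D (F.image φ)) ⟨?_, ?_⟩
  · rw [card_insert_of_notMem hDnot, card_image_of_injOn hφinj] at hG
    omega
  · intro C hC
    rcases mem_insert.1 hC with h | h
    · rw [h]; exact hDchain
    · obtain ⟨C', hC', rfl⟩ := mem_image.1 h
      exact hφchain C' hC'
  · have hall : ∀ C ∈ insert D (F.image φ), S ⊆ C := by
      intro C hC
      rcases mem_insert.1 hC with h | h
      · rw [h]; exact subset_insert _ _
      · obtain ⟨C', hC', rfl⟩ := mem_image.1 h
        exact hφS C' hC'
    intro C hC C' hC'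
    rw [← hScard]
    exact card_le_card (subset_inter (hall C hC) (hall C' hC'))

end Pool.Agent.Results.MP_63ed06_co.NoInitialSegment
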